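import Pool.Agent.MP_13e7a1_an.H82.All
import Pool.Agent.MP_13e7a1_an.Cur.Bridge

/-!
The domination principle for the Monge-Ampère operator on almost complex surfaces.
-/

open scoped Manifold ContDiff
open Pool.Agent.MP_13e7a1_an.Cur

universe uM

theorem Pool.Agent.Results.MP_13e7a1_an.DominationCur.result
    (M : Type uM) [TopologicalSpace M] [ChartedSpace E M] [IsManifold 𝓘(ℝ, E) ∞ M] [T2Space M]
    (J : End E M) (hJ : IsAlmostComplex J) (Ω : Set M) (hΩ : StrictlyPseudoconvex J Ω)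
    (u v : M → ℝ) (hu : Psh J Ω u) (hv : Psh J Ω v)
    (hub : ∃ C : ℝ, ∀ x ∈ Ω, |u x| ≤ C) (hvb : ∃ C : ℝ, ∀ x ∈ Ω, |v x| ≤ C)
    (hMA : MAGe J Ω u v) (K : Set M) (hK : IsCompact K) (hKΩ : K ⊆ Ω)
    (hout : ∀ x ∈ Ω \ K, u x ≤ v x) : ∀ x ∈ Ω, u x ≤ v x := by
  refine Pool.Agent.MP_13e7a1_an.H82.main M J hJ Ω hΩ u v hu hv hub hvb ?_ K hK hKΩ hout
  intro x₀ U hU hUt hUΩ Gu Gv hGu hGv φ hφ hφ0
  have hs : ∀ y ∈ U, ContDiffAt ℝ ∞ (chartJ J x₀) y := fun y hy =>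
    (hJ.2 x₀).contDiffAt ((chartAt E x₀).open_target.mem_nhds (hUt hy))
  have h := hMA x₀ U hU hUt hUΩ Gu Gv hGu hGv φ hφ hφ0
  rw [maCurrent_eq hU hs _ _ hφ (hGu.1 _ hφ.2.1 hφ.2.2),
    maCurrent_eq hU hs _ _ hφ (hGv.1 _ hφ.2.1 hφ.2.2)] at h
  exact h
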